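import Mathlib
import Pool.Agent.Y57.AK.Stm3

/-! # Project AK: the version for integers (adapted from AK-INTG2 of helper232) -/

set_option autoImplicit false

open Finset

namespace Pool.Agent.Y927.AK

open Pool.Agent.Y57.AK

theorem t_INTG3 : S_TEN1 → S_GAP1 → S_INTG3 := by
  classical
  intro hTEN hGAP n k L w W τ g D R y hτ0 hkR hdis hrep hτ hint hW x hx0 hx1
  obtain ⟨D', hsub, Y, hcard, hproj⟩ := hGAP n k L τ g D R y hkR hdis hrep hτ
  obtain ⟨ρ, hρ⟩ : ∃ ρ : ℤ → Fin n → ℚ,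
      ρ = fun (d : ℤ) (i : Fin n) => ((R d i : ℕ) : ℚ) := ⟨_, rfl⟩
  have hinj : Set.InjOn ρ (D' : Set ℤ) := by
    intro d hd d' hd' h
    rw [hrep d (hsub hd), hrep d' (hsub hd')]
    refine Finset.sum_congr rfl fun i _ => ?_
    have h1 := congrFun h i
    rw [hρ] at h1
    have h1' : ((R d i : ℕ) : ℚ) = ((R d' i : ℕ) : ℚ) := h1
    have h2 : R d i = R d' i := by exact_mod_cast h1'
    rw [h2]
  obtain ⟨γ, hγ⟩ : ∃ γ : (Fin n → ℚ) → ℤ, ∀ d ∈ D', γ (ρ d) = d :=
    ⟨Function.invFunOn ρ (D' : Set ℤ), fun d hd => hinj.leftInvOn_invFunOn hd⟩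
  obtain ⟨v, hv⟩ : ∃ v : (Fin n → ℚ) → (Fin n → ℚ), v = fun p i => (Y (γ p) i : ℚ) - p i :=
    ⟨_, rfl⟩
  have hjinj : Function.Injective (fun j : ℕ => 1 / ((j : ℚ) + 1)) := by
    intro a b h
    have ha : ((a : ℚ) + 1) ≠ 0 := by positivity
    have hb : ((b : ℚ) + 1) ≠ 0 := by positivity
    have h1 : ((a : ℚ) + 1) = (b : ℚ) + 1 := by
      have h2 : 1 / ((a : ℚ) + 1) = 1 / ((b : ℚ) + 1) := h
      field_simp at h2
      linarith
    have h3 : (a : ℚ) = b := by linarith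
    exact_mod_cast h3
  have hJc : ((range (k + 1)).image (fun j : ℕ => 1 / ((j : ℚ) + 1))).card = k + 1 := by
    rw [Finset.card_image_of_injective _ hjinj, Finset.card_range]
  have hJn : ((range (k + 1)).image (fun j : ℕ => 1 / ((j : ℚ) + 1))).Nonempty :=
    ⟨1 / (((0 : ℕ) : ℚ) + 1), Finset.mem_image_of_mem _ (Finset.mem_range.2 (Nat.succ_pos k))⟩
  have h3 : ∀ s ∈ (range (k + 1)).image (fun j : ℕ => 1 / ((j : ℚ) + 1)),
      ((D'.image ρ).image fun d i => d i + s * v d i).card ≤ W := by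
    intro s hs
    obtain ⟨j, hj, rfl⟩ := Finset.mem_image.1 hs
    have hjk : j ≤ k := Nat.lt_succ_iff.1 (Finset.mem_range.1 hj)
    have e : ((D'.image ρ).image fun d i => d i + (1 / ((j : ℚ) + 1)) * v d i) =
        (D'.image fun d => fun i : Fin n => Y d i + (j : ℤ) * (R d i : ℤ)).image
          (fun w i => ((w i : ℤ) : ℚ) / ((j : ℚ) + 1)) := by
      rw [Finset.image_image, Finset.image_image]
      refine Finset.image_congr fun d hd => ?_
      funext i
      change ρ d i + (1 / ((j : ℚ) + 1)) * v (ρ d) i =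
        ((Y d i + (j : ℤ) * (R d i : ℤ) : ℤ) : ℚ) / ((j : ℚ) + 1)
      rw [hv]
      change ρ d i + (1 / ((j : ℚ) + 1)) * ((Y (γ (ρ d)) i : ℚ) - ρ d i) = _
      rw [hγ d hd, hρ]
      have hj0 : ((j : ℚ) + 1) ≠ 0 := by positivity
      push_cast
      field_simp
      ring
    rw [e]
    exact Finset.card_image_le.trans ((hproj j hjk).trans (hW j hjk))
  have h1 : Interp w (D'.image ρ) := by
    intro u
    obtain ⟨f, hf1, hf2⟩ := hint u
    refine ⟨f, hf1, fun d hd => hf2 d ?_⟩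
    rw [hρ] at hd
    exact Finset.image_subset_image hsub hd
  have h4 := hTEN (Fin n) w W (D'.image ρ) v _ h1 hJn h3 x hx0 hx1
  rw [hJc, Finset.card_image_of_injOn hinj, Fintype.card_fin] at h4
  have h5 : (τ * D.card) ^ (k + 1) ≤ (D'.card : ℝ) ^ (k + 1) :=
    pow_le_pow_left₀ (mul_nonneg hτ0 (Nat.cast_nonneg _)) hcard _
  exact (mul_le_mul_of_nonneg_right h5 (pow_nonneg hx0.le _)).trans h4

end Pool.Agent.Y927.AK
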